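import Pool.Agent.Q61.BS.Stm

/-!
# Project BS (helper61), job SNG
-/

set_option autoImplicit false

open Set Filter Topology Real

namespace Pool.Agent.Q91.BS

open Pool.Agent.Q61.BS

theorem ww_mem {κ x : ℝ} (hκ : 0 < κ) (hx : x ∈ Icc (0:ℝ) 1) : 0 ≤ ww κ x ∧ ww κ x ≤ 1 := by
  have h1 : 0 ≤ κ * x := mul_nonneg hκ.le hx.1
  have h2 : 0 < 1 + κ * x := by linarith
  unfold ww
  exact ⟨div_nonneg (by linarith [hx.2]) h2.le, (div_le_one h2).2 (by linarith [hx.1])⟩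

theorem bdd (κ m : ℝ) (hκ : 0 < κ) :
    BddAbove ((fun x => binEntropy x + m * ww κ x) '' Icc (0 : ℝ) 1) := by
  refine ⟨log 2 + |m|, ?_⟩
  rintro _ ⟨x, hx, rfl⟩
  obtain ⟨h1, h2⟩ := ww_mem hκ hx
  have h3 : m * ww κ x ≤ |m| := by
    calc m * ww κ x ≤ |m| * ww κ x := mul_le_mul_of_nonneg_right (le_abs_self m) h1
      _ ≤ |m| * 1 := mul_le_mul_of_nonneg_left h2 (abs_nonneg m)
      _ = |m| := mul_one _
  have h4 : binEntropy x ≤ log 2 := binEntropy_le_log_two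
  simp only
  linarith

theorem ww_cont {κ x : ℝ} (hκ : 0 < κ) (hx : 0 < x) : ContinuousAt (ww κ) x := by
  unfold ww
  have h1 : 1 + κ * x ≠ 0 := by positivity
  exact ContinuousAt.div (by fun_prop) (by fun_prop) h1

theorem sng (h : S_top) (h1 : S_xze) : S_sng := by
  intro x₀ hx₀ hlog
  obtain ⟨hmax, C, r, hC, hr, hlow⟩ := h x₀ hx₀ hlog
  obtain ⟨hκ, hm, -⟩ := h1.2.1 x₀ hx₀
  obtain ⟨hx1, hx2⟩ := hx₀
  generalize kap x₀ = κ at *
  generalize mz x₀ = m₀ at *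
  have hx0 : 0 < x₀ := by linarith
  have hx0m : x₀ ∈ Icc (0:ℝ) 1 := ⟨hx0.le, by linarith⟩
  obtain ⟨hw0, hw0'⟩ := ww_mem hκ hx0m
  set A : ℝ → ℝ := fun x => binEntropy x + m₀ * ww κ x with hAd
  have hcont : ContinuousOn A (Icc 0 1) := by
    refine (binEntropy_continuous.continuousOn).add (continuousOn_const.mul ?_)
    unfold ww
    refine ContinuousOn.div (by fun_prop) (by fun_prop) fun x hx => ?_
    have : 0 ≤ κ * x := mul_nonneg hκ.le hx.1
    linarith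
  have hle : ∀ x ∈ Icc (0:ℝ) 1, A x ≤ A x₀ := by
    intro x hx
    by_cases hne : x = x₀
    · rw [hne]
    · exact (hmax x hx hne).le
  have hP0 : Phi κ m₀ = A x₀ := by
    unfold Phi
    apply le_antisymm
    · apply csSup_le ((nonempty_Icc.2 zero_le_one).image _)
      rintro _ ⟨x, hx, rfl⟩
      exact hle x hx
    · exact le_csSup (bdd κ m₀ hκ) ⟨x₀, hx0m, rfl⟩
  -- upper bound
  have hup : ∀ ε : ℝ, 0 < ε → ∃ c : ℝ, 0 < c ∧ ∀ μ : ℝ, 0 < μ → μ < c →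
      Phi κ (m₀ + μ) ≤ A x₀ + μ * ww κ x₀ + ε * μ := by
    intro ε hε
    obtain ⟨d, hd, hdw⟩ := Metric.continuousAt_iff.1 (ww_cont hκ hx0) ε hε
    have hT : IsCompact (Icc (0:ℝ) 1 ∩ {x | d ≤ |x - x₀|}) := by
      apply isCompact_Icc.inter_right
      exact isClosed_le continuous_const (by fun_prop)
    obtain ⟨c, hc, hcT⟩ : ∃ c : ℝ, 0 < c ∧ ∀ x ∈ Icc (0:ℝ) 1 ∩ {x | d ≤ |x - x₀|}, A x ≤ A x₀ - c := by
      rcases (Icc (0:ℝ) 1 ∩ {x | d ≤ |x - x₀|}).eq_empty_or_nonempty with he | hne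
      · exact ⟨1, one_pos, fun x hx => by rw [he] at hx; exact absurd hx (notMem_empty x)⟩
      · obtain ⟨x₁, hx₁, hmx⟩ := hT.exists_isMaxOn hne (hcont.mono inter_subset_left)
        have hne1 : x₁ ≠ x₀ := by
          rintro rfl
          have := hx₁.2
          simp only [mem_ofPred_eq, sub_self, abs_zero] at this
          linarith
        have hlt : A x₁ < A x₀ := hmax x₁ hx₁.1 hne1
        refine ⟨A x₀ - A x₁, by linarith, fun x hx => ?_⟩
        have := hmx hx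
        simp only [mem_ofPred_eq] at this
        linarith
    refine ⟨c, hc, fun μ hμ hμc => ?_⟩
    unfold Phi
    apply csSup_le ((nonempty_Icc.2 zero_le_one).image _)
    rintro _ ⟨x, hx, rfl⟩
    have e : binEntropy x + (m₀ + μ) * ww κ x = A x + μ * ww κ x := by rw [hAd]; ring
    simp only
    rw [e]
    obtain ⟨hwx, hwx'⟩ := ww_mem hκ hx
    by_cases hxd : d ≤ |x - x₀|
    · have h3 := hcT x ⟨hx, hxd⟩
      have h4 : μ * ww κ x ≤ μ * 1 := mul_le_mul_of_nonneg_left hwx' hμ.le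
      have h5 : 0 ≤ μ * ww κ x₀ := mul_nonneg hμ.le hw0
      have h6 : 0 < ε * μ := mul_pos hε hμ
      linarith
    · have h3 := hle x hx
      have h4 : dist (ww κ x) (ww κ x₀) < ε := hdw (by rw [Real.dist_eq]; exact not_le.1 hxd)
      rw [Real.dist_eq] at h4
      have h5 := (abs_lt.1 h4).2
      have h6 : μ * ww κ x ≤ μ * (ww κ x₀ + ε) := mul_le_mul_of_nonneg_left (by linarith) hμ.le
      have h7 : μ * (ww κ x₀ + ε) = μ * ww κ x₀ + ε * μ := by ring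
      linarith
  -- lower bound
  have hlo : ∀ K : ℝ, 0 < K → ∃ c : ℝ, 0 < c ∧ ∀ μ : ℝ, 0 < μ → μ < c →
      A x₀ + μ * ww κ x₀ + K * μ ^ 2 ≤ Phi κ (m₀ + μ) := by
    intro K hK
    have hE : 0 < (K + 1) * (1 + κ) := by positivity
    set E := (K + 1) * (1 + κ) with hEd
    have hD : 0 < C * E ^ 4 + 1 := by positivity
    refine ⟨min (min 1 (1 / (C * E ^ 4 + 1))) (min (r / E) (x₀ / E)), by positivity, fun μ hμ hμc => ?_⟩
    have hμ1 : μ < 1 := hμc.trans_le ((min_le_left _ _).trans (min_le_left _ _))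
    have hμ2 : μ < 1 / (C * E ^ 4 + 1) := hμc.trans_le ((min_le_left _ _).trans (min_le_right _ _))
    have hμ3 : μ < r / E := hμc.trans_le ((min_le_right _ _).trans (min_le_left _ _))
    have hμ4 : μ < x₀ / E := hμc.trans_le ((min_le_right _ _).trans (min_le_right _ _))
    rw [lt_div_iff₀ hE] at hμ3 hμ4
    rw [lt_div_iff₀ hD] at hμ2
    have hηp : 0 < μ * E := mul_pos hμ hE
    have hxm : x₀ - μ * E ∈ Icc (0:ℝ) 1 := ⟨by linarith, by linarith [hx0m.2]⟩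
    have h3 : A x₀ - C * (x₀ - μ * E - x₀) ^ 4 ≤ A (x₀ - μ * E) := by
      apply hlow
      rw [sub_sub_cancel_left, abs_neg, abs_of_pos hηp]
      exact hμ3
    have h4 : ww κ x₀ + μ * (K + 1) ≤ ww κ (x₀ - μ * E) := by
      have h5 : 0 < 1 + κ * x₀ := by positivity
      have h6 : 0 < 1 + κ * (x₀ - μ * E) := by
        have := mul_nonneg hκ.le hxm.1
        linarith
      have h7 : ww κ (x₀ - μ * E) - ww κ x₀ =
          (μ * E) * (1 + κ) / ((1 + κ * (x₀ - μ * E)) * (1 + κ * x₀)) := by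
        unfold ww
        field_simp
        ring
      have h8 : (1 + κ * (x₀ - μ * E)) * (1 + κ * x₀) ≤ (1 + κ) * (1 + κ) := by
        apply mul_le_mul _ _ h5.le (by positivity)
        · have := mul_le_mul_of_nonneg_left hxm.2 hκ.le
          linarith
        · have := mul_le_mul_of_nonneg_left hx0m.2 hκ.le
          linarith
      have h9 : μ * (K + 1) ≤ (μ * E) * (1 + κ) / ((1 + κ * (x₀ - μ * E)) * (1 + κ * x₀)) := by
        rw [le_div_iff₀ (mul_pos h6 h5)]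
        calc μ * (K + 1) * ((1 + κ * (x₀ - μ * E)) * (1 + κ * x₀))
            ≤ μ * (K + 1) * ((1 + κ) * (1 + κ)) := mul_le_mul_of_nonneg_left h8 (by positivity)
          _ = (μ * E) * (1 + κ) := by rw [hEd]; ring
      linarith
    have h5 : C * (x₀ - μ * E - x₀) ^ 4 ≤ μ ^ 2 := by
      have e1 : C * (x₀ - μ * E - x₀) ^ 4 = (μ * (C * E ^ 4)) * μ * μ ^ 2 := by ring
      rw [e1]
      have h6 : μ * (C * E ^ 4) ≤ 1 := by
        have e2 : μ * (C * E ^ 4 + 1) = μ * (C * E ^ 4) + μ := by ring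
        linarith
      have h7 : 0 ≤ μ * (C * E ^ 4) := by positivity
      have h8 : μ * (C * E ^ 4) * μ ≤ 1 := mul_le_one₀ h6 hμ.le hμ1.le
      calc μ * (C * E ^ 4) * μ * μ ^ 2 ≤ 1 * μ ^ 2 := mul_le_mul_of_nonneg_right h8 (by positivity)
        _ = μ ^ 2 := one_mul _
    have h6 : A (x₀ - μ * E) + μ * ww κ (x₀ - μ * E) ≤ Phi κ (m₀ + μ) := by
      unfold Phi
      refine le_csSup (bdd κ (m₀ + μ) hκ) ⟨x₀ - μ * E, hxm, ?_⟩
      simp only [hAd]
      ring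
    have h7 : μ * (ww κ x₀ + μ * (K + 1)) ≤ μ * ww κ (x₀ - μ * E) := mul_le_mul_of_nonneg_left h4 hμ.le
    have e2 : μ * (ww κ x₀ + μ * (K + 1)) = μ * ww κ x₀ + K * μ ^ 2 + μ ^ 2 := by ring
    linarith
  rintro ⟨g, hg, hg0, hfr⟩
  have hl5 : 0 < log 5 := log_pos (by norm_num)
  obtain ⟨p, hp⟩ := hg
  have hO := hp.isBigO_sub_partialSum_pow 2
  obtain ⟨c, hc⟩ := hO.bound
  have hps : ∀ y : ℝ, p.partialSum 2 y = p.coeff 0 + y * p.coeff 1 := by
    intro y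
    unfold FormalMultilinearSeries.partialSum
    rw [Finset.sum_range_succ, Finset.sum_range_one]
    simp
  simp only [hps] at hc
  have ha : g m₀ = p.coeff 0 := by
    have := hc.self_of_nhds
    simp only [add_zero, zero_mul, norm_zero, ne_eq, OfNat.ofNat_ne_zero, not_false_eq_true, zero_pow,
      mul_zero, norm_le_zero_iff] at this
    linarith
  set b := p.coeff 1 with hb
  -- eventually and frequently
  have hfr' : ∃ᶠ μ in 𝓝[>] (0:ℝ), g (m₀ + μ) = Phi κ (m₀ + μ) / log 5 := by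
    have h3 : map (fun μ : ℝ => m₀ + μ) (𝓝[>] (0:ℝ)) = 𝓝[>] m₀ := by
      have h4 := map_add_left_nhdsGT (a := (0:ℝ)) (c := m₀)
      rwa [add_zero] at h4
    rw [← h3] at hfr
    exact hfr
  have hkey : ∀ c₁ : ℝ, 0 < c₁ → ∃ μ : ℝ, 0 < μ ∧ μ < c₁ ∧
      g (m₀ + μ) = Phi κ (m₀ + μ) / log 5 ∧ |g (m₀ + μ) - (g m₀ + μ * b)| ≤ (|c| + 1) * μ ^ 2 := by
    intro c₁ hc₁
    have h3 : ∀ᶠ μ in 𝓝[>] (0:ℝ), μ ∈ Ioo 0 c₁ := Ioo_mem_nhdsGT hc₁
    have h4 := hc.filter_mono (nhdsWithin_le_nhds (s := Ioi (0:ℝ)))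
    obtain ⟨μ, h7, h5, h6⟩ := (hfr'.and_eventually (h3.and h4)).exists
    refine ⟨μ, h5.1, h5.2, h7, ?_⟩
    rw [ha]
    simp only [Real.norm_eq_abs, abs_pow, abs_abs] at h6
    rw [sq_abs] at h6
    refine h6.trans (mul_le_mul_of_nonneg_right ?_ (by positivity))
    linarith [le_abs_self c]
  have hgm : g m₀ * log 5 = A x₀ := by
    rw [hg0, hP0]
    field_simp
  set c' := (|c| + 1) * log 5 with hc'
  have hc'p : 0 < c' := by positivity
  -- b log 5 > w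
  have hb1 : ww κ x₀ < b * log 5 := by
    obtain ⟨c₁, hc₁, hlo1⟩ := hlo (c' + 1) (by linarith)
    obtain ⟨μ, hμ, hμc, hgμ, hgb⟩ := hkey c₁ hc₁
    have h3 := hlo1 μ hμ hμc
    have h4 : Phi κ (m₀ + μ) = g (m₀ + μ) * log 5 := by rw [hgμ]; field_simp
    rw [h4] at h3
    have h5 := (abs_le.1 hgb).2
    have h6 : g (m₀ + μ) * log 5 ≤ A x₀ + μ * (b * log 5) + c' * μ ^ 2 := by
      have : g (m₀ + μ) ≤ g m₀ + μ * b + (|c| + 1) * μ ^ 2 := by linarith
      calc g (m₀ + μ) * log 5 ≤ (g m₀ + μ * b + (|c| + 1) * μ ^ 2) * log 5 :=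
            mul_le_mul_of_nonneg_right this hl5.le
        _ = g m₀ * log 5 + μ * (b * log 5) + c' * μ ^ 2 := by rw [hc']; ring
        _ = _ := by rw [hgm]
    have h7 : μ * (ww κ x₀ + μ) ≤ μ * (b * log 5) := by
      have e2 : μ * (ww κ x₀ + μ) = μ * ww κ x₀ + (c' + 1) * μ ^ 2 - c' * μ ^ 2 := by ring
      linarith
    have h8 := le_of_mul_le_mul_left h7 hμ
    linarith
  -- b log 5 ≤ w + small
  have hε : 0 < (b * log 5 - ww κ x₀) / 3 := by linarith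
  obtain ⟨c₂, hc₂, hup1⟩ := hup _ hε
  obtain ⟨μ, hμ, hμc, hgμ, hgb⟩ := hkey (min c₂ ((b * log 5 - ww κ x₀) / 3 / c')) (by positivity)
  have h3 := hup1 μ hμ (hμc.trans_le (min_le_left _ _))
  have hμ' : μ * c' < (b * log 5 - ww κ x₀) / 3 := by
    have := hμc.trans_le (min_le_right _ _)
    rwa [lt_div_iff₀ hc'p] at this
  have h4 : Phi κ (m₀ + μ) = g (m₀ + μ) * log 5 := by rw [hgμ]; field_simp
  rw [h4] at h3
  have h5 := (abs_le.1 hgb).1
  have h6 : A x₀ + μ * (b * log 5) - c' * μ ^ 2 ≤ g (m₀ + μ) * log 5 := by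
    have : g m₀ + μ * b - (|c| + 1) * μ ^ 2 ≤ g (m₀ + μ) := by linarith
    calc A x₀ + μ * (b * log 5) - c' * μ ^ 2 = (g m₀ + μ * b - (|c| + 1) * μ ^ 2) * log 5 := by
          rw [← hgm, hc']; ring
      _ ≤ _ := mul_le_mul_of_nonneg_right this hl5.le
  have h7 : μ * (b * log 5) ≤ μ * (ww κ x₀ + (b * log 5 - ww κ x₀) / 3 + μ * c') := by
    have e2 : μ * (ww κ x₀ + (b * log 5 - ww κ x₀) / 3 + μ * c') =
        μ * ww κ x₀ + (b * log 5 - ww κ x₀) / 3 * μ + c' * μ ^ 2 := by ring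
    linarith
  have h8 := le_of_mul_le_mul_left h7 hμ
  linarith

end Pool.Agent.Q91.BS
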