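import Pool.Agent.Q61.BS.Stm

/-!
# Project BS (helper61), job TOP
-/

set_option autoImplicit false

open Set Filter Topology Real

namespace Pool.Agent.Q91.BS

open Pool.Agent.Q61.BS

theorem top1 (h : S_der) (h1 : S_xze) : S_top := by
  intro x₀ hx₀ hlog
  obtain ⟨B, hA, hB, hB0⟩ := h x₀ hx₀ hlog
  obtain ⟨hκ, hm, -⟩ := h1.2.1 x₀ hx₀
  obtain ⟨hx1, hx2⟩ := hx₀
  generalize kap x₀ = κ at *
  generalize mz x₀ = m at *
  have hx0 : 0 < x₀ := by linarith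
  have hcont : ContinuousOn (fun y => binEntropy y + m * ww κ y) (Icc 0 1) := by
    refine (binEntropy_continuous.continuousOn).add (continuousOn_const.mul ?_)
    unfold ww
    refine ContinuousOn.div (by fun_prop) (by fun_prop) fun x hx => ?_
    have : 0 ≤ κ * x := mul_nonneg hκ.le hx.1
    linarith
  have hfac : ∀ x ∈ Ioo (0:ℝ) 1, 0 < x * (1 - x) * (1 + κ * x) ^ 3 := by
    intro x hx
    have h3 : 0 < 1 - x := by linarith [hx.2]
    have h4 : 0 < 1 + κ * x := by have := mul_pos hκ hx.1; linarith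
    exact mul_pos (mul_pos hx.1 h3) (pow_pos h4 3)
  have hqpos : ∀ x ∈ Ioo (0:ℝ) 1, x ≠ x₀ →
      0 < κ ^ 3 * (x - x₀) ^ 2 * (x + 1 / (κ ^ 3 * x₀ ^ 2)) / (x * (1 - x) * (1 + κ * x) ^ 3) := by
    intro x hx hne
    have h2 : 0 < (x - x₀) ^ 2 := by
      have := sub_ne_zero.2 hne
      positivity
    have h5 : 0 < x + 1 / (κ ^ 3 * x₀ ^ 2) := by
      have : 0 < 1 / (κ ^ 3 * x₀ ^ 2) := by positivity
      linarith [hx.1]
    exact div_pos (mul_pos (mul_pos (pow_pos hκ 3) h2) h5) (hfac x hx)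
  have hBanti1 : StrictAntiOn B (Ioc 0 x₀) := by
    apply strictAntiOn_of_deriv_neg (convex_Ioc 0 x₀)
    · intro x hx
      exact (hB x ⟨hx.1, by linarith [hx.2]⟩).continuousAt.continuousWithinAt
    · intro x hx
      rw [interior_Ioc] at hx
      have hx' : x ∈ Ioo (0:ℝ) 1 := ⟨hx.1, by linarith [hx.2]⟩
      rw [(hB x hx').deriv]
      have := hqpos x hx' hx.2.ne
      linarith
  have hBanti2 : StrictAntiOn B (Ico x₀ 1) := by
    apply strictAntiOn_of_deriv_neg (convex_Ico x₀ 1)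
    · intro x hx
      exact (hB x ⟨by linarith [hx.1], hx.2⟩).continuousAt.continuousWithinAt
    · intro x hx
      rw [interior_Ico] at hx
      have hx' : x ∈ Ioo (0:ℝ) 1 := ⟨by linarith [hx.1], hx.2⟩
      rw [(hB x hx').deriv]
      have := hqpos x hx' hx.1.ne'
      linarith
  have hmono : StrictMonoOn (fun y => binEntropy y + m * ww κ y) (Icc 0 x₀) := by
    apply strictMonoOn_of_deriv_pos (convex_Icc 0 x₀) (hcont.mono (Icc_subset_Icc_right (by linarith)))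
    intro x hx
    rw [interior_Icc] at hx
    rw [(hA x ⟨hx.1, by linarith [hx.2]⟩).deriv, ← hB0]
    exact hBanti1 ⟨hx.1, hx.2.le⟩ ⟨hx0, le_rfl⟩ hx.2
  have hanti : StrictAntiOn (fun y => binEntropy y + m * ww κ y) (Icc x₀ 1) := by
    apply strictAntiOn_of_deriv_neg (convex_Icc x₀ 1) (hcont.mono (Icc_subset_Icc_left hx0.le))
    intro x hx
    rw [interior_Icc] at hx
    rw [(hA x ⟨by linarith [hx.1], hx.2⟩).deriv, ← hB0]
    exact hBanti2 ⟨le_rfl, by linarith⟩ ⟨hx.1.le, hx.2⟩ hx.1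
  refine ⟨fun x hx hne => ?_, ?_⟩
  · rcases lt_or_gt_of_ne hne with hlt | hgt
    · exact hmono ⟨hx.1, hlt.le⟩ ⟨hx0.le, le_rfl⟩ hlt
    · exact hanti ⟨le_rfl, by linarith⟩ ⟨hgt.le, hx.2⟩ hgt
  · have hκ3 : 0 < κ ^ 3 := pow_pos hκ 3
    have hN : 0 < κ ^ 3 * (1 + 1 / (κ ^ 3 * x₀ ^ 2)) := by positivity
    refine ⟨25 * (κ ^ 3 * (1 + 1 / (κ ^ 3 * x₀ ^ 2))), 1 / 20, by positivity, by norm_num, fun x hx => ?_⟩
    have hin : ∀ y ∈ uIcc x₀ x, |y - x₀| ≤ |x - x₀| ∧ y ∈ Ioo (0:ℝ) 1 ∧ 1 / 20 ≤ y ∧ y ≤ 1 / 5 := by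
      intro y hy
      have h2 : |y - x₀| ≤ |x - x₀| := abs_sub_left_of_mem_uIcc hy
      have h3 := abs_lt.1 (h2.trans_lt hx)
      refine ⟨h2, ⟨by linarith [h3.1], by linarith [h3.2]⟩, by linarith [h3.1], by linarith [h3.2]⟩
    have hBb : ∀ y ∈ uIcc x₀ x, ‖B y‖ ≤ 25 * (κ ^ 3 * (1 + 1 / (κ ^ 3 * x₀ ^ 2))) * |x - x₀| ^ 2 * |x - x₀| := by
      intro y hy
      have h2 := Convex.norm_image_sub_le_of_norm_hasDerivWithin_le (f := B)
        (f' := fun x => -(κ ^ 3 * (x - x₀) ^ 2 * (x + 1 / (κ ^ 3 * x₀ ^ 2)) / (x * (1 - x) * (1 + κ * x) ^ 3)))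
        (C := 25 * (κ ^ 3 * (1 + 1 / (κ ^ 3 * x₀ ^ 2))) * |x - x₀| ^ 2) (s := uIcc x₀ x)
        (fun z hz => (hB z (hin z hz).2.1).hasDerivWithinAt) (fun z hz => ?_) (convex_uIcc x₀ x)
        left_mem_uIcc hy
      · rw [hB0, sub_zero] at h2
        refine h2.trans (mul_le_mul_of_nonneg_left ?_ (by positivity))
        rw [Real.norm_eq_abs]
        exact (hin y hy).1
      · obtain ⟨hz1, hz2, hz3, hz4⟩ := hin z hz
        have hd := hfac z hz2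
        have hnum : 0 ≤ κ ^ 3 * (z - x₀) ^ 2 * (z + 1 / (κ ^ 3 * x₀ ^ 2)) := by
          have : 0 < z := hz2.1
          positivity
        rw [norm_neg, Real.norm_eq_abs, abs_of_nonneg (div_nonneg hnum hd.le), div_le_iff₀ hd]
        have h5 : (z - x₀) ^ 2 ≤ |x - x₀| ^ 2 := by
          rw [← sq_abs (z - x₀)]
          exact pow_le_pow_left₀ (abs_nonneg _) hz1 2
        have h6 : (1 / 25 : ℝ) ≤ z * (1 - z) * (1 + κ * z) ^ 3 := by
          have h7 : (1 : ℝ) ≤ (1 + κ * z) ^ 3 := by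
            have : 0 ≤ κ * z := mul_nonneg hκ.le hz2.1.le
            exact one_le_pow₀ (by linarith)
          have h8 : (1 / 25 : ℝ) ≤ z * (1 - z) := by nlinarith
          calc (1 / 25 : ℝ) = 1 / 25 * 1 := by ring
            _ ≤ z * (1 - z) * (1 + κ * z) ^ 3 := mul_le_mul h8 h7 zero_le_one (by linarith)
        have h9 : κ ^ 3 * (z - x₀) ^ 2 * (z + 1 / (κ ^ 3 * x₀ ^ 2)) ≤
            κ ^ 3 * |x - x₀| ^ 2 * (1 + 1 / (κ ^ 3 * x₀ ^ 2)) := by
          refine mul_le_mul (mul_le_mul_of_nonneg_left h5 hκ3.le) (by linarith [hz2.2]) ?_ (by positivity)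
          have : 0 < z := hz2.1
          positivity
        calc κ ^ 3 * (z - x₀) ^ 2 * (z + 1 / (κ ^ 3 * x₀ ^ 2)) ≤
            κ ^ 3 * |x - x₀| ^ 2 * (1 + 1 / (κ ^ 3 * x₀ ^ 2)) := h9
          _ = 25 * (κ ^ 3 * (1 + 1 / (κ ^ 3 * x₀ ^ 2))) * |x - x₀| ^ 2 * (1 / 25) := by ring
          _ ≤ _ := mul_le_mul_of_nonneg_left h6 (by positivity)
    have h3 := Convex.norm_image_sub_le_of_norm_hasDerivWithin_le
      (f := fun y => binEntropy y + m * ww κ y) (f' := B)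
      (C := 25 * (κ ^ 3 * (1 + 1 / (κ ^ 3 * x₀ ^ 2))) * |x - x₀| ^ 2 * |x - x₀|) (s := uIcc x₀ x)
      (fun z hz => (hA z (hin z hz).2.1).hasDerivWithinAt) hBb (convex_uIcc x₀ x)
      left_mem_uIcc right_mem_uIcc
    rw [Real.norm_eq_abs, Real.norm_eq_abs] at h3
    have h4 := (abs_le.1 h3).1
    have h5 : |x - x₀| ^ 2 * |x - x₀| * |x - x₀| = (x - x₀) ^ 4 := by
      have : |x - x₀| ^ 2 = (x - x₀) ^ 2 := sq_abs _
      calc |x - x₀| ^ 2 * |x - x₀| * |x - x₀| = |x - x₀| ^ 2 * |x - x₀| ^ 2 := by ring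
        _ = (x - x₀) ^ 4 := by rw [this]; ring
    have h6 : 25 * (κ ^ 3 * (1 + 1 / (κ ^ 3 * x₀ ^ 2))) * |x - x₀| ^ 2 * |x - x₀| * |x - x₀| =
        25 * (κ ^ 3 * (1 + 1 / (κ ^ 3 * x₀ ^ 2))) * (x - x₀) ^ 4 := by
      rw [← h5]; ring
    rw [h6] at h4
    linarith

end Pool.Agent.Q91.BS
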